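import Mathlib

/-!
Points of a matroid, the classes `U(q)` and `L(r)`, excluded minors and the size function.
-/

set_option autoImplicit false

namespace Pool.Agent.H89.Dens

open Set

/-- The points of a matroid are its flats of rank one. -/
def points {α : Type} (M : Matroid α) : Set (Set α) := {F | M.IsFlat F ∧ M.eRk F = 1}

/-- Isomorphism of matroids: a bijection of the ground sets that preserves independence in both
directions. -/
def Isomorphic {α β : Type} (M : Matroid α) (N : Matroid β) : Prop :=
  ∃ e : M.E ≃ N.E, ∀ I : Set M.E, M.Indep ((↑) '' I) ↔ N.Indep ((↑) '' (e '' I))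

/-- `G` has a minor isomorphic to `M`. -/
def HasMinor {α β : Type} (G : Matroid α) (M : Matroid β) : Prop :=
  ∃ N : Matroid α, N.IsMinor G ∧ Isomorphic N M

/-- The class `U(q)`: no minor is the line with `q + 2` points, which is the matroid on `q + 2`
elements whose independent sets are the sets with at most two elements. -/
def InU (q : ℕ) {α : Type} (G : Matroid α) : Prop :=
  ¬ ∃ N : Matroid α, N.IsMinor G ∧ N.E.encard = q + 2 ∧ ∀ I ⊆ N.E, N.Indep I ↔ I.encard ≤ 2

/-- The class `L(r)`: the matroid is representable over a field with `r` elements. -/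
def InL (r : ℕ) {α : Type} (G : Matroid α) : Prop :=
  ∃ (F : Type) (_ : Field F) (n : ℕ) (v : α → (Fin n → F)),
    Nat.card F = r ∧ ∀ I ⊆ G.E, G.Indep I ↔ LinearIndepOn F v I

/-- The class `EX(M i) ∩ U(q)`: the matroids in `U(q)` without a minor isomorphic to one of the
matroids `M i`. -/
def InClass (q : ℕ) {ι : Type} {β : ι → Type} (M : ∀ i, Matroid (β i)) (α : Type)
    (G : Matroid α) : Prop :=
  InU q G ∧ ∀ i, ¬ HasMinor G (M i)

/-- The size function of a class of matroids: the supremum of the number of points of the finite
matroids of rank `n` in the class. -/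
noncomputable def sizeFn (C : ∀ α : Type, Matroid α → Prop) (n : ℕ) : ℕ∞ :=
  ⨆ (α : Type) (G : Matroid α) (_ : G.Finite ∧ C α G ∧ G.eRank = n), (points G).encard

/-- The statement of the question for one value of `q`: for every collection `M` of finite
matroids in `U(q)`, if `r` is the largest prime power `r ≤ q` such that no `M i` is representable
over the field with `r` elements, then the size function of `EX(M i) ∩ U(q)` is eventually equal
to `(r ^ n - 1) / (r - 1)`. -/
def Statement (q : ℕ) : Prop :=
  ∀ (ι : Type) (β : ι → Type) (M : ∀ i, Matroid (β i)),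
    (∀ i, (M i).Finite ∧ InU q (M i)) →
    ∀ r : ℕ, IsGreatest {r : ℕ | IsPrimePow r ∧ r ≤ q ∧ ∀ i, ¬ InL r (M i)} r →
      ∃ N : ℕ, ∀ n ≥ N, sizeFn (InClass q M) n = ((r ^ n - 1) / (r - 1) : ℕ)

end Pool.Agent.H89.Dens
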