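import Pool.Agent.Helper236.Lin

/-!
Subspaces over a subfield and the number of elements of minors of a linear matroid.
-/

set_option autoImplicit false

namespace Pool.Agent.H89.Dens

open Set Module Submodule Pool.Agent.Helper236

section lin

set_option linter.unusedSectionVars false

variable {k K X : Type} [Field k] [Field K] [Algebra k K] [AddCommGroup X] [Module K X]
  [Module k X] [IsScalarTower k K X] [Finite X]

theorem finrank_span_le' (Y : Submodule k X) :
    finrank K (span K (Y : Set X)) ≤ finrank k Y := by
  have hf : Module.Finite k Y := Module.Finite.of_finite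
  let b := Module.finBasis k Y
  have h : span K (Y : Set X) = span K (range fun i => (b i : X)) := by
    apply le_antisymm
    · rw [span_le]
      intro y hy
      have h1 := b.sum_repr ⟨y, hy⟩
      have h2 : y = ∑ i, (b.repr ⟨y, hy⟩ i) • (b i : X) := by
        have h3 := congrArg Y.subtype h1
        rw [map_sum] at h3
        simpa using h3.symm
      rw [h2]
      refine Submodule.sum_mem _ fun i _ => ?_
      rw [← algebraMap_smul K (b.repr ⟨y, hy⟩ i) (b i : X)]
      exact smul_mem _ _ (subset_span ⟨i, rfl⟩)
    · rw [span_le]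
      rintro _ ⟨i, rfl⟩
      exact subset_span (b i).2
  rw [h]
  refine (finrank_range_le_card _).trans ?_
  simp

/-- the restriction of a quotient map to a subspace over the subfield -/
def qmap (W : Submodule k X) (V : Submodule K X) : W →ₗ[k] X ⧸ V :=
  (V.mkQ.restrictScalars k).comp W.subtype

theorem qmap_range (W : Submodule k X) (V : Submodule K X) :
    LinearMap.range (qmap W V) = W.map (V.mkQ.restrictScalars k) := by
  rw [qmap, LinearMap.range_comp, Submodule.range_subtype]

theorem qmap_ker (W : Submodule k X) (V : Submodule K X) :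
    finrank k (LinearMap.ker (qmap W V)) = finrank k ↥(W ⊓ V.restrictScalars k) := by
  have h : (LinearMap.ker (qmap W V)).map W.subtype = W ⊓ V.restrictScalars k := by
    ext x
    simp only [Submodule.mem_map, LinearMap.mem_ker, Submodule.mem_inf,
      Submodule.restrictScalars_mem]
    constructor
    · rintro ⟨y, hy, rfl⟩
      refine ⟨y.2, ?_⟩
      have : V.mkQ (y : X) = 0 := hy
      simpa using this
    · rintro ⟨h1, h2⟩
      refine ⟨⟨x, h1⟩, ?_, rfl⟩
      change V.mkQ x = 0
      simpa using h2
  rw [← h, Submodule.finrank_map_subtype_eq]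

theorem rank_nullity (W : Submodule k X) (V : Submodule K X) :
    finrank k ↥(W.map (V.mkQ.restrictScalars k)) + finrank k ↥(W ⊓ V.restrictScalars k)
      = finrank k W := by
  have hf : Module.Finite k W := Module.Finite.of_finite
  rw [← qmap_range, ← qmap_ker]
  exact LinearMap.finrank_range_add_finrank_ker _

theorem span_map (W : Submodule k X) (V : Submodule K X) (hW : span K (W : Set X) = ⊤) :
    span K ((W.map (V.mkQ.restrictScalars k) : Submodule k (X ⧸ V)) : Set (X ⧸ V)) = ⊤ := by
  have h1 : ((W.map (V.mkQ.restrictScalars k) : Submodule k (X ⧸ V)) : Set (X ⧸ V))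
      = V.mkQ '' (W : Set X) := by
    ext x
    simp
  rw [h1, Submodule.span_image, hW, Submodule.map_top, Submodule.range_mkQ]

theorem inf_add_le (W : Submodule k X) (hW : span K (W : Set X) = ⊤) (V : Submodule K X) :
    finrank k ↥(W ⊓ V.restrictScalars k) + finrank K X ≤ finrank k W + finrank K V := by
  have hf : Module.Finite K X := Module.Finite.of_finite
  have h1 := rank_nullity W V
  have hq : Finite (X ⧸ V) := Finite.of_surjective _ V.mkQ_surjective
  have h2 := finrank_span_le' (K := K) (W.map (V.mkQ.restrictScalars k))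
  rw [span_map W V hW, finrank_top] at h2
  have h3 := Submodule.finrank_quotient_add_finrank V
  omega

theorem map_add_le (W : Submodule k X) (U : Submodule K X) {S : Set X} (hS : S ⊆ W)
    (hU : U = span K S) :
    finrank k ↥(W.map (U.mkQ.restrictScalars k)) + finrank K U ≤ finrank k W := by
  have h1 := rank_nullity W U
  have h2 := finrank_span_le' (K := K) (W ⊓ U.restrictScalars k)
  have h3 : span K ((W ⊓ U.restrictScalars k : Submodule k X) : Set X) = U := by
    apply le_antisymm
    · rw [span_le]
      intro x hx
      exact hx.2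
    · conv_lhs => rw [hU]
      apply span_mono
      intro x hx
      refine ⟨hS hx, ?_⟩
      rw [hU]
      exact subset_span hx
  rw [h3] at h2
  omega

/-- the intersection of the image of `W` in the quotient with a subspace of the quotient -/
theorem quot_inf_le (W : Submodule k X) (hW : span K (W : Set X) = ⊤)
    (hdim : finrank k W ≤ finrank K X + 1) (U : Submodule K X) {S : Set X} (hS : S ⊆ W)
    (hU : U = span K S) (V : Submodule K (X ⧸ U)) :
    finrank k ↥(W.map (U.mkQ.restrictScalars k) ⊓ V.restrictScalars k) ≤ finrank K V + 1 := by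
  have hf : Module.Finite K X := Module.Finite.of_finite
  have hq : Finite (X ⧸ U) := Finite.of_surjective _ U.mkQ_surjective
  have h1 := map_add_le W U hS hU
  have h2 := inf_add_le (W.map (U.mkQ.restrictScalars k)) (span_map W U hW) V
  have h3 := Submodule.finrank_quotient_add_finrank U
  omega

end lin

theorem simple_injOn {F : Type} [Field F] {X α : Type} [AddCommGroup X] [Module F X]
    {N : Matroid α} (hN : IsSimple N) {u : α → X} (hu : Rep F N u) : InjOn u N.E := by
  intro e he f hf hef
  by_contra hne
  have h1 := (hu {e, f} (by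
    intro x hx
    rcases hx with rfl | rfl
    · exact he
    · exact hf)).1 (hN e he f hf)
  exact hne (h1.injOn (by simp) (by simp) hef)

theorem simple_ncard_le {F : Type} [Field F] [Finite F] {X α : Type} [AddCommGroup X]
    [Module F X] {N : Matroid α} [N.Finite] (hN : IsSimple N) {u : α → X} (hu : Rep F N u) :
    N.E.ncard ≤ Nat.card F ^ rk N N.E := by
  have hfin : Module.Finite F (span F (u '' N.E)) :=
    FiniteDimensional.span_of_finite F (N.ground_finite.image u)
  have hfin' : Finite (span F (u '' N.E)) := Module.finite_of_finite F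
  rw [hu.rk_eq Subset.rfl, ← Module.natCard_eq_pow_finrank, ← Nat.card_coe_set_eq]
  refine Nat.card_le_card_of_injective
    (fun e : N.E => (⟨u e, subset_span ⟨e, e.2, rfl⟩⟩ : span F (u '' N.E))) ?_
  intro e f hef
  have : u e = u f := congrArg Subtype.val hef
  exact Subtype.ext (simple_injOn hN hu e.2 f.2 this)

theorem minor_ncard_le {k K X α : Type} [Field k] [Finite k] [Field K] [Algebra k K]
    [AddCommGroup X] [Module K X] [Module k X] [IsScalarTower k K X] [Finite X]
    {M : Matroid α} [M.Finite] {v : α → X} (hv : Rep K M v) (W : Submodule k X)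
    (hW : span K (W : Set X) = ⊤) (hvW : ∀ e ∈ M.E, v e ∈ W)
    (hdim : finrank k W ≤ finrank K X + 1) {N : Matroid α} (hN : N.IsMinor M)
    (hs : IsSimple N) : N.E.ncard ≤ Nat.card k ^ (rk N N.E + 1) := by
  obtain ⟨C, D, hC, hD, hCD, rfl⟩ := hN.exists_eq_contract_delete_disjoint
  have hNf : ((M.contract C).delete D).Finite := ⟨M.ground_finite.subset
    (sdiff_subset.trans sdiff_subset)⟩
  have hu := hv.minor C D hC
  set N := (M.contract C).delete D with hNdef
  set U := span K (v '' C) with hU
  have hCW : v '' C ⊆ W := by
    rintro _ ⟨e, he, rfl⟩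
    exact hvW e (hC he)
  have key := quot_inf_le W hW hdim U hCW hU (span K ((U.mkQ ∘ v) '' N.E))
  rw [← hu.rk_eq Subset.rfl] at key
  have hk : 1 ≤ Nat.card k := Nat.card_pos
  refine le_trans ?_ (Nat.pow_le_pow_right hk key)
  rw [← Module.natCard_eq_pow_finrank, ← Nat.card_coe_set_eq]
  have hNE : N.E ⊆ M.E := sdiff_subset.trans sdiff_subset
  have hq : Finite (X ⧸ U) := Finite.of_surjective _ U.mkQ_surjective
  refine Nat.card_le_card_of_injective
    (fun e : N.E => (⟨(U.mkQ ∘ v) e, ⟨⟨v e, hvW e (hNE e.2), rfl⟩,
      subset_span ⟨e, e.2, rfl⟩⟩⟩ :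
      ↥(W.map (U.mkQ.restrictScalars k) ⊓
        (span K ((U.mkQ ∘ v) '' N.E)).restrictScalars k))) ?_
  intro e f hef
  have : (U.mkQ ∘ v) e = (U.mkQ ∘ v) f := congrArg Subtype.val hef
  exact Subtype.ext (simple_injOn hs hu e.2 f.2 this)

end Pool.Agent.H89.Dens
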