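import Pool.Agent.H89.Dens.Defs
import Pool.Agent.H89.Dens.Lin

/-!
Lines in representable matroids, the matroid of a projective space, and the matroids with
all but one coordinate in a subfield.
-/

set_option autoImplicit false

namespace Pool.Agent.H89.Dens

open Set Module Submodule Pool.Agent.Helper236
open scoped LinearAlgebra.Projectivization

theorem simple_ncard_le_proj {F : Type} [Field F] [Finite F] {X α : Type} [AddCommGroup X]
    [Module F X] {N : Matroid α} [N.Finite] (hN : IsSimple N) {u : α → X} (hu : Rep F N u) :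
    N.E.ncard ≤ Nat.card (ℙ F (span F (u '' N.E))) := by
  have hfin : Module.Finite F (span F (u '' N.E)) :=
    FiniteDimensional.span_of_finite F (N.ground_finite.image u)
  have hfin' : Finite (span F (u '' N.E)) := Module.finite_of_finite F
  have hnz : ∀ e ∈ N.E, u e ≠ 0 := by
    intro e he h0
    have h1 := (hu {e, e} (by
      intro x hx
      rcases hx with rfl | rfl <;> exact he)).1 (hN e he e he)
    exact h1.ne_zero (by simp) h0
  rw [← Nat.card_coe_set_eq]
  refine Nat.card_le_card_of_injective
    (fun e : N.E => Projectivization.mk F (⟨u e, subset_span ⟨e, e.2, rfl⟩⟩ : span F (u '' N.E))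
      (by
        intro h
        exact hnz e e.2 (congrArg Subtype.val h))) ?_
  intro e f hef
  simp only [Projectivization.mk_eq_mk_iff'] at hef
  obtain ⟨a, ha⟩ := hef
  have ha' : a • u f = u e := congrArg Subtype.val ha
  by_contra hne
  have hne' : (f : α) ≠ e := fun h => hne (Subtype.ext h.symm)
  have h1 := (hu {(f : α), (e : α)} (by
      intro x hx
      rcases hx with rfl | rfl
      · exact f.2
      · exact e.2)).1 (hN f f.2 e e.2)
  rw [linearIndepOn_pair_iff _ hne' (hnz f f.2)] at h1
  exact h1 a ha'

/-- representable matroids have no long lines -/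
theorem inU_of_rep {F : Type} [Field F] [Finite F] {X α : Type} [AddCommGroup X]
    [Module F X] {M : Matroid α} [M.Finite] {v : α → X} (hv : Rep F M v) {q : ℕ}
    (hq : Nat.card F ≤ q) : InU q M := by
  rintro ⟨N, hN, hcard, hind⟩
  obtain ⟨C, D, hC, hD, hCD, rfl⟩ := hN.exists_eq_contract_delete_disjoint
  have hNf : ((M.contract C).delete D).Finite := ⟨M.ground_finite.subset
    (sdiff_subset.trans sdiff_subset)⟩
  have hu := hv.minor C D hC
  set N := (M.contract C).delete D with hNdef
  have hs : IsSimple N := by
    intro e he f hf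
    rw [hind _ (by
      intro x hx
      rcases hx with rfl | rfl
      · exact he
      · exact hf)]
    refine (Set.encard_insert_le _ _).trans ?_
    rw [Set.encard_singleton]
    exact le_of_eq one_add_one_eq_two
  have h1 := simple_ncard_le_proj hs hu
  have hrk : rk N N.E = 2 := by
    obtain ⟨J, hJ, hJc⟩ : ∃ J ⊆ N.E, J.encard = 2 := by
      apply Set.exists_subset_encard_eq
      rw [hcard]
      exact le_add_self
    have hJi : N.Indep J := by
      rw [hind J hJ, hJc]
    have hle : N.eRk N.E ≤ 2 := by
      obtain ⟨B, hB⟩ := N.exists_isBasis N.E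
      rw [← hB.encard_eq_eRk]
      exact (hind B hB.subset).1 hB.indep
    have hge : 2 ≤ N.eRk N.E := by
      rw [← hJc]
      exact hJi.encard_le_eRk_of_subset hJ
    rw [rk, le_antisymm hle hge]
    rfl
  rw [hu.rk_eq Subset.rfl] at hrk
  rw [Projectivization.card_of_finrank_two F _ hrk] at h1
  have h2 : N.E.ncard = q + 2 := by
    rw [Set.ncard, hcard]
    rfl
  omega

/-- the matroid of the points of the projective space of dimension `t - 1` -/
noncomputable def pg (F : Type) [Field F] [Finite F] (t : ℕ) : Matroid (ℙ F (Fin t → F)) :=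
  linMatroid F (fun p : ℙ F (Fin t → F) => p.rep) univ (Set.toFinite _)

section pg

variable (F : Type) [Field F] [Finite F] (t : ℕ)

theorem pg_rep : Rep F (pg F t) (fun p : ℙ F (Fin t → F) => p.rep) := linMatroid_rep _ _ _

instance pg_finite : (pg F t).Finite := ⟨Set.toFinite _⟩

theorem pg_simple : IsSimple (pg F t) := by
  intro e _ f _
  rw [pg_rep F t _ (subset_univ _)]
  by_cases hef : e = f
  · subst hef
    simpa using e.rep_nonzero
  · rw [linearIndepOn_pair_iff _ hef e.rep_nonzero]
    intro c hc
    apply hef
    rw [← e.mk_rep, ← f.mk_rep, eq_comm, Projectivization.mk_eq_mk_iff']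
    exact ⟨c, hc⟩

theorem pg_indep_le {I : Set (ℙ F (Fin t → F))} (hI : (pg F t).Indep I) : I.encard ≤ t := by
  have h1 := (pg_rep F t I (subset_univ _)).1 hI
  have hfin : I.Finite := Set.toFinite _
  have h2 := finrank_span_of_linearIndepOn h1 hfin
  have h3 := Submodule.finrank_le (span F ((fun p : ℙ F (Fin t → F) => p.rep) '' I))
  rw [h2, Module.finrank_fin_fun] at h3
  rw [← hfin.cast_ncard_eq]
  exact_mod_cast h3

theorem pg_card_ge (ht : 1 ≤ t) : (Nat.card F) ^ (t - 1) ≤ (pg F t).E.ncard := by
  have h1 : (pg F t).E.ncard = Nat.card (ℙ F (Fin t → F)) := by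
    rw [pg, linMatroid_E, Set.ncard_univ]
  rw [h1, Projectivization.card_of_finrank F _ (n := t) (by simp)]
  exact Finset.single_le_sum (f := fun i => Nat.card F ^ i) (fun _ _ => Nat.zero_le _)
    (Finset.mem_range.2 (by omega))

theorem pg_inU {q : ℕ} (hq : Nat.card F ≤ q) : InU q (pg F t) := inU_of_rep (pg_rep F t) hq

theorem pg_inL : InL (Nat.card F) (pg F t) := ⟨F, inferInstance, t, _, rfl, pg_rep F t⟩

theorem pg_not_inL {s : ℕ} (hs0 : 0 < s) (hs : s ^ t < (pg F t).E.ncard) :
    ¬ InL s (pg F t) := by
  rintro ⟨k, hk, n, v, hc, hv⟩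
  have hkf : Finite k := Nat.finite_of_card_ne_zero (by omega)
  have h1 := simple_ncard_le (pg_simple F t) (F := k) (u := v) hv
  rw [hc] at h1
  have h2 : rk (pg F t) (pg F t).E ≤ t := by
    obtain ⟨B, hB⟩ := (pg F t).exists_isBasis (pg F t).E
    rw [rk, ← hB.encard_eq_eRk]
    have := pg_indep_le F t hB.indep
    have h3 := ENat.toNat_le_toNat this (ENat.natCast_ne_top t)
    simpa using h3
  have h3 := h1.trans (Nat.pow_le_pow_right hs0 h2)
  omega

end pg

/-- properties transferred from a projective space along an isomorphism -/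
theorem iso_pg {F : Type} [Field F] [Finite F] {t : ℕ} {α : Type} {N : Matroid α}
    (h : Isomorphic N (pg F t)) :
    IsSimple N ∧ rk N N.E ≤ t ∧ N.E.ncard = (pg F t).E.ncard := by
  obtain ⟨e, he⟩ := h
  refine ⟨?_, ?_, ?_⟩
  · intro x hx y hy
    have h1 := he {⟨x, hx⟩, ⟨y, hy⟩}
    rw [image_pair, image_pair, image_pair] at h1
    rw [h1]
    exact pg_simple F t _ (e ⟨x, hx⟩).2 _ (e ⟨y, hy⟩).2
  · obtain ⟨B, hB⟩ := N.exists_isBasis N.E
    have hBE : ((↑) '' ((↑) ⁻¹' B : Set N.E) : Set α) = B := by
      rw [image_preimage_eq_inter_range, Subtype.range_coe]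
      exact inter_eq_left.2 hB.subset
    have h1 := (he ((↑) ⁻¹' B)).1 (by rw [hBE]; exact hB.indep)
    have h2 := pg_indep_le F t h1
    rw [Subtype.val_injective.encard_image, e.injective.encard_image,
      ← Subtype.val_injective.encard_image, hBE, hB.encard_eq_eRk] at h2
    rw [rk]
    have h3 := ENat.toNat_le_toNat h2 (ENat.natCast_ne_top t)
    simpa using h3
  · rw [← Nat.card_coe_set_eq, ← Nat.card_coe_set_eq]
    exact Nat.card_congr e

/-! ### The dense matroids -/

section dense

set_option linter.unusedSectionVars false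

variable (k K : Type) [Field k] [Finite k] [Field K] [Finite K] [Algebra k K] (m : ℕ)

/-- the vectors with all but the first coordinate in the subfield -/
def emb : (K × (Fin m → k)) →ₗ[k] (K × (Fin m → K)) :=
  LinearMap.prodMap LinearMap.id ((Algebra.linearMap k K).compLeft (Fin m))

theorem emb_apply (a : K) (c : Fin m → k) :
    emb k K m (a, c) = (a, fun i => algebraMap k K (c i)) := rfl

/-- the vector of an element of the matroid -/
noncomputable def dv : Option (K × ℙ k (Fin m → k)) → K × (Fin m → K)
  | none => emb k K m (1, 0)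
  | some (a, p) => emb k K m (a, p.rep)

/-- the dense matroid -/
noncomputable def dm : Matroid (Option (K × ℙ k (Fin m → k))) :=
  linMatroid K (dv k K m) univ (Set.toFinite _)

instance dm_finite : (dm k K m).Finite := ⟨Set.toFinite _⟩

theorem dm_rep : Rep K (dm k K m) (dv k K m) := linMatroid_rep _ _ _

theorem dv_mem (e : Option (K × ℙ k (Fin m → k))) :
    dv k K m e ∈ LinearMap.range (emb k K m) := by
  rcases e with _ | ⟨a, p⟩
  · exact ⟨_, rfl⟩
  · exact ⟨_, rfl⟩

theorem span_dv : span K (range (dv k K m)) = ⊤ := by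
  have h1 : ((1 : K), (0 : Fin m → K)) ∈ span K (range (dv k K m)) := by
    apply subset_span
    refine ⟨none, ?_⟩
    rw [dv, emb_apply]
    simp [Pi.zero_def]
  have h2 : ∀ c : Fin m → k, ((0 : K), fun i => algebraMap k K (c i)) ∈
      span K (range (dv k K m)) := by
    intro c
    by_cases hc : c = 0
    · subst hc
      have : ((0 : K), fun i => algebraMap k K ((0 : Fin m → k) i)) = 0 := by
        ext <;> simp
      rw [this]
      exact zero_mem _
    · obtain ⟨a, ha⟩ := Projectivization.exists_smul_eq_mk_rep k c hc
      have h3 : dv k K m (some (0, Projectivization.mk k c hc)) ∈ span K (range (dv k K m)) :=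
        subset_span ⟨_, rfl⟩
      rw [dv, emb_apply] at h3
      have h4 := smul_mem _ (algebraMap k K ((a⁻¹ : kˣ) : k)) h3
      convert h4 using 1
      ext i
      · simp
      · have h5 : (Projectivization.mk k c hc).rep i = (a : k) * c i := by
          rw [← ha]
          rfl
        simp only [Prod.smul_mk, Pi.smul_apply, smul_eq_mul, h5, map_mul]
        rw [← mul_assoc, ← map_mul]
        simp
  rw [eq_top_iff]
  rintro ⟨a, c⟩ -
  have h6 : ((a, c) : K × (Fin m → K)) = a • ((1 : K), (0 : Fin m → K)) +
      ∑ j, c j • ((0 : K), fun i => algebraMap k K ((Pi.single j 1 : Fin m → k) i)) := by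
    ext i
    · simp [Prod.fst_sum]
    · simp [Prod.snd_sum, Finset.sum_apply, Pi.single_apply, apply_ite]
  rw [h6]
  exact add_mem (smul_mem _ _ h1) (sum_mem fun j _ => smul_mem _ _ (h2 _))

theorem dm_simple : IsSimple (dm k K m) := by
  have hrep : ∀ p : ℙ k (Fin m → k), ∃ i, p.rep i ≠ 0 := by
    intro p
    by_contra hcon
    push Not at hcon
    exact p.rep_nonzero (funext hcon)
  intro e _ f _
  rw [dm_rep k K m _ (subset_univ _)]
  have hne : ∀ e, dv k K m e ≠ 0 := by
    intro e h
    rcases e with _ | ⟨a, p⟩
    · rw [dv, emb_apply] at h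
      exact one_ne_zero (congrArg Prod.fst h)
    · rw [dv, emb_apply] at h
      obtain ⟨i, hi⟩ := hrep p
      have := congrFun (congrArg Prod.snd h) i
      simp at this
      exact hi this
  by_cases hef : e = f
  · subst hef
    simpa using hne e
  · rw [linearIndepOn_pair_iff _ hef (hne e)]
    intro c hc
    rcases e with _ | ⟨a, p⟩ <;> rcases f with _ | ⟨b, p'⟩
    · exact hef rfl
    · rw [dv, dv, emb_apply, emb_apply] at hc
      obtain ⟨i, hi⟩ := hrep p'
      have := congrFun (congrArg Prod.snd hc) i
      simp at this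
      exact hi (by simpa using this.symm)
    · rw [dv, dv, emb_apply, emb_apply] at hc
      obtain ⟨i, hi⟩ := hrep p
      have h1 := congrFun (congrArg Prod.snd hc) i
      have h2 := congrArg Prod.fst hc
      simp [hi] at h1 h2
      rw [h1] at h2
      simp at h2
    · rw [dv, dv, emb_apply, emb_apply] at hc
      obtain ⟨i, hi⟩ := hrep p
      have h1 : ∀ j, c * algebraMap k K (p.rep j) = algebraMap k K (p'.rep j) :=
        fun j => congrFun (congrArg Prod.snd hc) j
      have hi' : algebraMap k K (p.rep i) ≠ 0 := by simpa using hi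
      have hcd : c = algebraMap k K (p'.rep i / p.rep i) := by
        rw [map_div₀, eq_div_iff hi']
        exact h1 i
      have h3 : (p'.rep i / p.rep i) • p.rep = p'.rep := by
        ext j
        have := h1 j
        rw [hcd, ← map_mul] at this
        exact (algebraMap k K).injective this
      have hpp : p = p' := by
        rw [← p.mk_rep, ← p'.mk_rep, eq_comm, Projectivization.mk_eq_mk_iff']
        exact ⟨_, h3⟩
      subst hpp
      have hc1 : c = 1 := by rw [hcd, div_self hi, map_one]
      have h4 : c * a = b := congrArg Prod.fst hc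
      rw [hc1, one_mul] at h4
      subst h4
      exact hef rfl

theorem dm_rank : (dm k K m).eRank = (m + 1 : ℕ) := by
  have h1 : rk (dm k K m) (dm k K m).E = m + 1 := by
    rw [(dm_rep k K m).rk_eq Subset.rfl]
    have : dv k K m '' (dm k K m).E = range (dv k K m) := by
      rw [← image_univ]
      rfl
    rw [this, span_dv, finrank_top]
    simp [add_comm]
  rw [← h1, rk, ENat.natCast_toNat, Matroid.eRk_ground]
  have := (dm k K m).eRk_le_encard (dm k K m).E
  exact ne_top_of_le_ne_top (by simpa using Set.toFinite _) this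

theorem dm_ncard : (dm k K m).E.ncard =
    1 + Nat.card K * ∑ i ∈ Finset.range m, Nat.card k ^ i := by
  have h1 : (dm k K m).E = univ := rfl
  rw [h1, Set.ncard_univ, Finite.card_option, Nat.card_prod,
    Projectivization.card_of_finrank k _ (n := m) (by simp), add_comm]

/-- the bound for the number of elements of the simple minors -/
theorem dm_minor_le (h2 : finrank k K = 2) {N : Matroid (Option (K × ℙ k (Fin m → k)))}
    (hN : N.IsMinor (dm k K m)) (hs : IsSimple N) :
    N.E.ncard ≤ Nat.card k ^ (rk N N.E + 1) := by
  refine minor_ncard_le (dm_rep k K m) (LinearMap.range (emb k K m)) ?_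
    (fun e _ => dv_mem k K m e) ?_ hN hs
  · rw [eq_top_iff, ← span_dv k K m]
    apply span_mono
    rintro _ ⟨e, rfl⟩
    exact dv_mem k K m e
  · have hf : Module.Finite k K := Module.Finite.of_finite
    refine (LinearMap.finrank_range_le _).trans ?_
    simp [h2]
    omega

theorem dm_inU {q : ℕ} (hq : Nat.card K ≤ q) : InU q (dm k K m) := inU_of_rep (dm_rep k K m) hq

end dense

/-- the points of a simple matroid are the elements -/
theorem points_simple {α : Type} {M : Matroid α} (hM : IsSimple M) :
    points M = (fun e => {e}) '' M.E := by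
  have hcl : ∀ e ∈ M.E, M.closure {e} = {e} := by
    intro e he
    have hi : M.Indep {e} := by simpa using hM e he e he
    ext f
    rw [hi.mem_closure_iff', mem_singleton_iff]
    constructor
    · rintro ⟨hf, h⟩
      have := h (by
        rw [Set.pair_comm]
        exact hM e he f hf)
      simpa using this
    · rintro rfl
      exact ⟨he, fun _ => rfl⟩
  ext F
  constructor
  · rintro ⟨hF, hr⟩
    obtain ⟨I, hI⟩ := M.exists_isBasis F hF.subset_ground
    have h1 : I.encard = 1 := by rw [hI.encard_eq_eRk, hr]
    obtain ⟨e, rfl⟩ := Set.encard_eq_one.1 h1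
    have he : e ∈ M.E := hI.indep.subset_ground rfl
    refine ⟨e, he, ?_⟩
    have h2 := hI.closure_eq_closure
    rw [hF.closure, hcl e he] at h2
    exact h2
  · rintro ⟨e, he, rfl⟩
    have hi : M.Indep {e} := by simpa using hM e he e he
    refine ⟨?_, ?_⟩
    · have := M.isFlat_closure {e}
      rw [hcl e he] at this
      exact this
    · change M.eRk {e} = 1
      rw [hi.eRk_eq_encard, Set.encard_singleton]

end Pool.Agent.H89.Dens
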