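import Pool.Agent.H89.Dens.Geo

/-!
Classes of matroids without long lines that are denser than expected.
-/

set_option autoImplicit false

namespace Pool.Agent.H89.Dens

open Set Module Submodule Pool.Agent.Helper236

theorem exists_field {r : ℕ} (hr : IsPrimePow r) :
    ∃ (F : Type) (_ : Field F) (_ : Finite F), Nat.card F = r := by
  rw [isPrimePow_nat_iff] at hr
  obtain ⟨p, n, hp, hn, rfl⟩ := hr
  have : Fact p.Prime := ⟨hp⟩
  exact ⟨GaloisField p n, inferInstance, inferInstance, GaloisField.card p n hn.ne'⟩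

theorem exists_pair {s : ℕ} (hs : IsPrimePow s) :
    ∃ (k K : Type) (_ : Field k) (_ : Finite k) (_ : Field K) (_ : Finite K) (_ : Algebra k K),
      Nat.card k = s ∧ Nat.card K = s ^ 2 ∧ finrank k K = 2 := by
  rw [isPrimePow_nat_iff] at hs
  obtain ⟨p, n, hp, hn, rfl⟩ := hs
  have : Fact p.Prime := ⟨hp⟩
  have h1 : Nat.card (GaloisField p n) = p ^ n := GaloisField.card p n hn.ne'
  refine ⟨GaloisField p n, FiniteField.Extension (GaloisField p n) p 2, inferInstance,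
    inferInstance, inferInstance, inferInstance, inferInstance, h1, ?_,
    FiniteField.finrank_extension _ _ _⟩
  rw [FiniteField.natCard_extension, h1]

theorem pow_lemma (s j : ℕ) : s ^ j * (s + j) ≤ s * (s + 1) ^ j := by
  induction j with
  | zero => simp
  | succ j ih =>
    calc s ^ (j + 1) * (s + (j + 1)) ≤ (s + 1) * (s ^ j * (s + j)) := by
          rw [pow_succ]
          nlinarith [Nat.zero_le (s ^ j * j), Nat.zero_le (s ^ j)]
      _ ≤ (s + 1) * (s * (s + 1) ^ j) := Nat.mul_le_mul_left _ ih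
      _ = s * (s + 1) ^ (j + 1) := by ring

theorem pow_lt {s r : ℕ} (hs : 0 < s) (hr : s < r) : s ^ (s ^ 3 + 2) < r ^ (s ^ 3) := by
  have h1 := pow_lemma s (s ^ 3)
  have h2 : s * s ^ (s ^ 3 + 2) < s * (s + 1) ^ (s ^ 3) := by
    calc s * s ^ (s ^ 3 + 2) = s ^ (s ^ 3) * s ^ 3 := by ring
      _ < s ^ (s ^ 3) * (s + s ^ 3) := by
          apply Nat.mul_lt_mul_of_pos_left _ (by positivity)
          omega
      _ ≤ _ := h1
  have h3 := Nat.lt_of_mul_lt_mul_left h2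
  exact h3.trans_le (Nat.pow_le_pow_left hr _)

theorem geom_two (s m : ℕ) : ∑ i ∈ Finset.range (m + 2), s ^ i =
    1 + s + s ^ 2 * ∑ i ∈ Finset.range m, s ^ i := by
  rw [Finset.sum_range_succ', Finset.sum_range_succ', Finset.mul_sum]
  have : ∀ i ∈ Finset.range m, s ^ (i + 1 + 1) = s ^ 2 * s ^ i := by
    intro i _
    ring
  rw [Finset.sum_congr rfl this]
  ring

theorem size_ge {s q : ℕ} (hs : IsPrimePow s) (hq : s ^ 2 ≤ q) {ι : Type} {β : ι → Type}
    {M : ∀ i, Matroid (β i)}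
    (hM : ∀ i, ∃ (F : Type) (_ : Field F) (_ : Finite F), s < Nat.card F ∧
      Isomorphic (M i) (pg F (s ^ 3 + 1)) ∧ ∀ (α : Type) (N : Matroid α),
        Isomorphic N (M i) → Isomorphic N (pg F (s ^ 3 + 1)))
    {n : ℕ} (hn : 1 ≤ n) :
    (((s ^ (n + 1) - 1) / (s - 1) - s : ℕ) : ℕ∞) ≤ sizeFn (InClass q M) n := by
  obtain ⟨m, rfl⟩ : ∃ m, n = m + 1 := ⟨n - 1, by omega⟩
  obtain ⟨k, K, _, _, _, _, _, hk, hK, h2⟩ := exists_pair hs
  have hs2 : 2 ≤ s := hs.two_le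
  have hpts : (points (dm k K m)).encard = ((s ^ (m + 1 + 1) - 1) / (s - 1) - s : ℕ) := by
    rw [points_simple (dm_simple k K m), Set.InjOn.encard_image (fun _ _ _ _ h => by simpa using h),
      ← (Set.toFinite (dm k K m).E).cast_ncard_eq, dm_ncard, hK, hk, ← Nat.geomSum_eq hs2,
      show m + 1 + 1 = m + 2 from rfl, geom_two]
    congr 1
    omega
  rw [← hpts]
  refine le_iSup_of_le _ (le_iSup_of_le (dm k K m) (le_iSup_of_le ⟨inferInstance, ⟨?_, ?_⟩, ?_⟩
    le_rfl))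
  · exact dm_inU k K m (by omega)
  · rintro i ⟨N, hN, hiso⟩
    obtain ⟨F, _, _, hF, -, htr⟩ := hM i
    obtain ⟨h3, h4, h5⟩ := iso_pg (htr _ N hiso)
    have h6 := dm_minor_le k K m h2 hN h3
    have h7 := pg_card_ge F (s ^ 3 + 1) (by omega)
    have h8 := pow_lt (by omega) hF
    have h9 : Nat.card k ^ (rk N N.E + 1) ≤ s ^ (s ^ 3 + 2) := by
      rw [hk]
      exact Nat.pow_le_pow_right (by omega) (by omega)
    rw [Nat.add_sub_cancel] at h7
    omega
  · exact dm_rank k K m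

theorem isomorphic_refl {α : Type} (M : Matroid α) : Isomorphic M M :=
  ⟨Equiv.refl _, fun I => by simp⟩

theorem strict {s n : ℕ} (hs : 2 ≤ s) (hn : 2 ≤ n) :
    (s ^ n - 1) / (s - 1) < (s ^ (n + 1) - 1) / (s - 1) - s := by
  obtain ⟨m, rfl⟩ : ∃ m, n = m + 2 := ⟨n - 2, by omega⟩
  rw [← Nat.geomSum_eq hs, ← Nat.geomSum_eq hs, show m + 2 + 1 = (m + 1) + 2 from rfl,
    geom_two s (m + 1), show m + 2 = (m + 1) + 1 from rfl, Finset.sum_range_succ' _ (m + 1)]
  have h1 : ∑ i ∈ Finset.range (m + 1), s ^ (i + 1) = s * ∑ i ∈ Finset.range (m + 1), s ^ i := by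
    rw [Finset.mul_sum]
    exact Finset.sum_congr rfl fun i _ => by ring
  rw [h1]
  have h2 : 1 ≤ ∑ i ∈ Finset.range (m + 1), s ^ i := by
    rw [Finset.sum_range_succ']
    simp
  have h3 : s * ∑ i ∈ Finset.range (m + 1), s ^ i < s ^ 2 * ∑ i ∈ Finset.range (m + 1), s ^ i := by
    apply Nat.mul_lt_mul_of_pos_right _ (by omega)
    nlinarith
  simp only [pow_zero]
  omega

theorem main (s q : ℕ) (hs : IsPrimePow s) (hq : s ^ 2 ≤ q) :
    ∃ (ι : Type) (_ : Finite ι) (β : ι → Type) (M : ∀ i, Matroid (β i)),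
      (∀ i, (M i).Finite ∧ InU q (M i)) ∧
      IsGreatest {r : ℕ | IsPrimePow r ∧ r ≤ q ∧ ∀ i, ¬ InL r (M i)} s ∧
      ∀ n : ℕ, 2 ≤ n →
        (s ^ n - 1) / (s - 1) < (s ^ (n + 1) - 1) / (s - 1) - s ∧
        (((s ^ (n + 1) - 1) / (s - 1) - s : ℕ) : ℕ∞) ≤ sizeFn (InClass q M) n := by
  have hs2 : 2 ≤ s := hs.two_le
  have hsq : s ≤ q := le_trans (by nlinarith) hq
  let ι : Type := {r : ℕ // IsPrimePow r ∧ s < r ∧ r ≤ q}
  have hι : Finite ι := by
    apply Set.Finite.subset (Set.finite_Iic q)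
    intro r hr
    exact hr.2.2
  choose F hF hFf hFc using fun i : ι => exists_field i.2.1
  refine ⟨ι, hι, _, fun i => pg (F i) (s ^ 3 + 1), ?_, ?_, ?_⟩
  · intro i
    exact ⟨inferInstance, pg_inU _ _ (by rw [hFc]; exact i.2.2.2)⟩
  · refine ⟨⟨hs, hsq, fun i => ?_⟩, ?_⟩
    · apply pg_not_inL _ _ (by omega)
      have h7 := pg_card_ge (F i) (s ^ 3 + 1) (by omega)
      have h8 := pow_lt (by omega) i.2.2.1
      rw [Nat.add_sub_cancel, hFc] at h7
      have h9 : s ^ (s ^ 3 + 1) ≤ s ^ (s ^ 3 + 2) := Nat.pow_le_pow_right (by omega) (by omega)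
      omega
    · rintro r ⟨hr, hrq, hri⟩
      by_contra hlt
      push Not at hlt
      apply hri ⟨r, hr, hlt, hrq⟩
      have := pg_inL (F ⟨r, hr, hlt, hrq⟩) (s ^ 3 + 1)
      rw [hFc] at this
      exact this
  · intro n hn
    refine ⟨strict hs2 hn, ?_⟩
    apply size_ge hs hq _ (by omega)
    intro i
    exact ⟨F i, hF i, hFf i, by rw [hFc]; exact i.2.2.1, isomorphic_refl _, fun _ _ h => h⟩

theorem not_statement (q : ℕ) (hq : 4 ≤ q) : ¬ Statement q := by
  intro h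
  obtain ⟨ι, _, β, M, h1, h2, h3⟩ := main 2 q Nat.prime_two.isPrimePow (by omega)
  obtain ⟨N, hN⟩ := h ι β M h1 2 h2
  obtain ⟨h4, h5⟩ := h3 (max N 2) (le_max_right _ _)
  rw [hN _ (le_max_left _ _)] at h5
  have h6 := Nat.cast_le.1 h5
  omega

end Pool.Agent.H89.Dens
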